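import Pool.Agent.H45.SHA.Stmts

/-!
# SHA, module CLS: few independent points near a toric hypersurface
-/

set_option autoImplicit false

namespace Pool.SHA

open Finset Pool.Agent.H98.ABCR

private lemma cls_toQ_inj {k : ℕ} : Function.Injective (toQ (k := k)) := by
  intro a b h
  funext j
  have := congrFun h j
  simpa [toQ] using this

private lemma cls_toQ_prod {k n : ℕ} (w : Fin n → Fin k → ℕ) :
    ∏ r, toQ (w r) = toQ (∏ r, w r) := by
  funext j
  simp [toQ, Finset.prod_apply]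

private lemma cls_toZ_prod {k n : ℕ} (w : Fin n → Fin k → ℕ) :
    toZ (∏ r, w r) = ∏ r, toZ (w r) := by
  funext j
  simp [toZ, Finset.prod_apply]

private lemma cls_prod_swap {k n : ℕ} (S : Finset (Fin k)) (ξ : Fin k → ℕ)
    (y : Fin n → Fin k → ℤ) :
    ∏ j ∈ S, (∏ r, y r) j ^ ξ j = ∏ r, ∏ j ∈ S, y r j ^ ξ j := by
  simp only [Finset.prod_apply, ← Finset.prod_pow]
  exact Finset.prod_comm

private lemma cls_modEq_prod {n : ℕ} (M : ℤ) (a b : Fin n → ℤ) (h : ∀ r, a r ≡ b r [ZMOD M]) :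
    ∏ r, a r ≡ ∏ r, b r [ZMOD M] := by
  classical
  have : ∀ s : Finset (Fin n), ∏ r ∈ s, a r ≡ ∏ r ∈ s, b r [ZMOD M] := by
    intro s
    induction s using Finset.induction_on with
    | empty => simp
    | insert x s hx ih =>
      rw [Finset.prod_insert hx, Finset.prod_insert hx]
      exact (h x).mul ih
  exact this _

private lemma cls_rel_prod {k n : ℕ} (J : Finset (Fin k)) (ξ : Fin k → ℕ) (M : ℕ)
    (y y0 : Fin n → Fin k → ℤ) (h : ∀ r, Rel J ξ M (y r) (y0 r)) :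
    Rel J ξ M (∏ r, y r) (∏ r, y0 r) := by
  unfold Rel at *
  simp only [cls_prod_swap, ← Finset.prod_mul_distrib]
  exact cls_modEq_prod _ _ _ h

private lemma cls_choose_f (B κ : ℝ) (p : ℕ) (hB1 : 1 ≤ B) (hp1 : (1 : ℝ) < p)
    (hpκ : (p : ℝ) ≤ B ^ κ) :
    ∃ f : ℕ, 2 ≤ f ∧ B ^ κ ≤ (p : ℝ) ^ f ∧ (p : ℝ) ^ f ≤ B ^ (2 * κ) := by
  classical
  have hB0 : 0 < B := by linarith
  have hex : ∃ n : ℕ, 2 ≤ n ∧ B ^ κ ≤ (p : ℝ) ^ n := by
    obtain ⟨n, hn⟩ := pow_unbounded_of_one_lt (B ^ κ) hp1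
    refine ⟨n + 2, by omega, hn.le.trans ?_⟩
    exact pow_le_pow_right₀ hp1.le (by omega)
  have h2 : B ^ (2 * κ) = B ^ κ * B ^ κ := by
    rw [← Real.rpow_add hB0]; congr 1; ring
  have hspec := Nat.find_spec hex
  refine ⟨Nat.find hex, hspec.1, hspec.2, ?_⟩
  rw [h2]
  rcases Nat.lt_or_ge 2 (Nat.find hex) with h3 | h3
  · have hm := Nat.find_min hex (m := Nat.find hex - 1) (by omega)
    have hlt : (p : ℝ) ^ (Nat.find hex - 1) < B ^ κ := by
      by_contra hcon
      exact hm ⟨by omega, not_lt.mp hcon⟩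
    calc (p : ℝ) ^ Nat.find hex = (p : ℝ) ^ (Nat.find hex - 1) * p := by
          rw [← pow_succ]; congr 1; omega
      _ ≤ B ^ κ * B ^ κ := by
          apply mul_le_mul hlt.le hpκ (by linarith) (by positivity)
  · have h4 : Nat.find hex = 2 := le_antisymm h3 hspec.1
    rw [h4, pow_two]
    exact mul_le_mul hpκ hpκ (by linarith) (by positivity)

/-- few independent points near a toric hypersurface -/
theorem cls_thm (hAC : S_AC) (hVAN : S_VAN) : S_CLS := by
  classical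
  intro k ε hε
  obtain ⟨c, hc⟩ : ∃ c : ℝ, c = 1 / 2 ^ k := ⟨_, rfl⟩
  have hc0 : 0 < c := by rw [hc]; positivity
  have hc1 : c ≤ 1 := by
    rw [hc, div_le_one (by positivity)]
    exact one_le_pow₀ (by norm_num)
  obtain ⟨κ, hκ⟩ : ∃ κ : ℝ, κ = ε * c / (4 * ((k : ℝ) + 1)) := ⟨_, rfl⟩
  have hκ0 : 0 < κ := by rw [hκ]; positivity
  obtain ⟨L, C1, B0, hC1, hB0, hV⟩ := hVAN k κ hκ0
  obtain ⟨C, hC, hA⟩ := hAC k L
  refine ⟨max C1 (1 / κ), max B0 (C ^ (2 / (c * ε))), le_max_of_le_left hC1,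
    le_max_of_le_left hB0, ?_⟩
  intro B p v J ξ Z hB hp hpB hξ hξB hZ hStar hRel
  have hBB0 : B0 ≤ B := le_trans (le_max_left _ _) hB
  have hB1 : 1 ≤ B := hB0.trans hBB0
  have hBpos : 0 < B := by linarith
  have hp1 : (1 : ℝ) < p := by exact_mod_cast hp.one_lt
  have hpκ : (p : ℝ) ≤ B ^ κ := by
    have h1 : (p : ℝ) ^ (1 / κ) ≤ B :=
      le_trans (Real.rpow_le_rpow_of_exponent_le hp1.le (le_max_right _ _)) hpB
    calc (p : ℝ) = ((p : ℝ) ^ (1 / κ)) ^ κ := by
          rw [← Real.rpow_mul (by positivity), one_div, inv_mul_cancel₀ hκ0.ne', Real.rpow_one]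
      _ ≤ B ^ κ := Real.rpow_le_rpow (by positivity) h1 hκ0.le
  obtain ⟨f, hf2, hf1, hfu⟩ := cls_choose_f B κ p hB1 hp1 hpκ
  have hpf : 0 < p ^ f := pow_pos hp.pos _
  -- the tuples and their residues
  obtain ⟨T, hT⟩ : ∃ T : Finset (Fin (k + 1) → Fin (k + 1) → ℕ),
      T = Fintype.piFinset (fun _ : Fin (k + 1) => Z) := ⟨_, rfl⟩
  have hmemT : ∀ w, w ∈ T ↔ ∀ r, w r ∈ Z := by
    intro w; rw [hT, Fintype.mem_piFinset]
  have hTcard : (T.card : ℝ) = (Z.card : ℝ) ^ (k + 1) := by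
    rw [hT, Fintype.card_piFinset]
    simp
  obtain ⟨res, hres⟩ : ∃ res : (Fin (k + 1) → Fin (k + 1) → ℕ) → (Fin (k + 1) → Fin (p ^ f)),
      ∀ w j, ((res w j : Fin (p ^ f)) : ℕ) = (∏ r, w r) j % p ^ f :=
    ⟨fun w j => ⟨(∏ r, w r) j % p ^ f, Nat.mod_lt _ hpf⟩, fun _ _ => rfl⟩
  -- one fibre
  have hfib : ∀ ρ : Fin (k + 1) → Fin (p ^ f), ((T.filter (fun w => res w = ρ)).card : ℝ) ≤
      C * (Z.card : ℝ) ^ ((k : ℝ) + 1 - c) := by
    intro ρ
    obtain ⟨F, hF0, hFdeg, hFv⟩ := hV B p f v J ξ ((T.filter (fun w => res w = ρ)).image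
      (fun w => ∏ r, w r)) hBB0 hp hf1 (by omega) (fun _ => hf2) hξ
      (fun j => by
        refine le_trans ?_ (hξB j)
        apply mul_le_mul_of_nonneg_left _ (by positivity)
        exact Real.rpow_le_rpow_of_exponent_le hB1 (le_max_left _ _))
      (by
        intro y hy j
        rw [Finset.mem_image] at hy
        obtain ⟨w, hw, rfl⟩ := hy
        have hwT := (hmemT w).1 (Finset.mem_filter.1 hw).1
        constructor
        · rw [Finset.prod_apply, Nat.cast_prod]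
          calc ∏ r, ((w r j : ℕ) : ℝ) ≤ ∏ _r : Fin (k + 1), B :=
                Finset.prod_le_prod (fun r _ => Nat.cast_nonneg _) (fun r _ => (hZ _ (hwT r) j).1)
            _ = B ^ ((k : ℝ) + 1) := by
                rw [Finset.prod_const, Finset.card_univ, Fintype.card_fin, ← Real.rpow_natCast]
                push_cast; rfl
        · rw [Finset.prod_apply, Prime.dvd_finsetProd_iff hp.prime]
          rintro ⟨r, _, hr⟩
          exact (hZ _ (hwT r) j).2 hr)
      (by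
        intro y hy y' hy'
        rw [Finset.mem_image] at hy hy'
        obtain ⟨w, hw, rfl⟩ := hy
        obtain ⟨w', hw', rfl⟩ := hy'
        have hwT := (hmemT w).1 (Finset.mem_filter.1 hw).1
        have hwT' := (hmemT w').1 (Finset.mem_filter.1 hw').1
        constructor
        · intro j
          have h1 := hres w j
          have h2 := hres w' j
          rw [(Finset.mem_filter.1 hw).2] at h1
          rw [(Finset.mem_filter.1 hw').2] at h2
          exact h1.symm.trans h2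
        · rw [cls_toZ_prod, cls_toZ_prod]
          exact cls_rel_prod _ _ _ _ _ (fun r => hRel _ (hwT r) _ (hwT' r)))
    have hA' := hA (Z.image toQ) F hF0 hFdeg hStar
    rw [Finset.card_image_of_injective _ cls_toQ_inj, ← hc] at hA'
    refine le_trans ?_ hA'
    norm_cast
    apply Finset.card_le_card_of_injOn (fun w r => toQ (w r))
    · intro w hw
      have hw2 := Finset.mem_coe.1 hw
      have hwT := (hmemT w).1 (Finset.mem_filter.1 hw2).1
      rw [Finset.mem_coe, Finset.mem_filter, Fintype.mem_piFinset]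
      refine ⟨fun r => Finset.mem_image_of_mem _ (hwT r), ?_⟩
      simp only [cls_toQ_prod]
      exact hFv _ (Finset.mem_image_of_mem _ hw2)
    · intro w _ w' _ h
      funext r
      exact cls_toQ_inj (congrFun h r)
  -- the sum over the fibres
  have hsum : (T.card : ℝ) ≤ ((p : ℝ) ^ f) ^ (k + 1) * (C * (Z.card : ℝ) ^ ((k : ℝ) + 1 - c)) := by
    have h1 : T.card = ∑ ρ : Fin (k + 1) → Fin (p ^ f), (T.filter (fun w => res w = ρ)).card :=
      Finset.card_eq_sum_card_fiberwise (fun _ _ => Finset.mem_coe.2 (Finset.mem_univ _))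
    rw [h1, Nat.cast_sum]
    calc ∑ ρ : Fin (k + 1) → Fin (p ^ f), ((T.filter (fun w => res w = ρ)).card : ℝ)
        ≤ ∑ _ρ : Fin (k + 1) → Fin (p ^ f), C * (Z.card : ℝ) ^ ((k : ℝ) + 1 - c) :=
          Finset.sum_le_sum (fun ρ _ => hfib ρ)
      _ = ((p : ℝ) ^ f) ^ (k + 1) * (C * (Z.card : ℝ) ^ ((k : ℝ) + 1 - c)) := by
          rw [Finset.sum_const, Finset.card_univ, nsmul_eq_mul]
          congr 1
          simp
  rcases Nat.eq_zero_or_pos Z.card with hN | hN
  · rw [hN]; simp only [Nat.cast_zero]; positivity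
  have hNr : (0 : ℝ) < Z.card := by exact_mod_cast hN
  rw [hTcard] at hsum
  -- N ^ c ≤ C * B ^ (2 κ (k+1))
  have hpow : ((p : ℝ) ^ f) ^ (k + 1) ≤ B ^ (ε * c / 2) := by
    calc ((p : ℝ) ^ f) ^ (k + 1) ≤ (B ^ (2 * κ)) ^ (k + 1) :=
          pow_le_pow_left₀ (by positivity) hfu _
      _ = B ^ (ε * c / 2) := by
          rw [← Real.rpow_natCast, ← Real.rpow_mul hBpos.le]
          congr 1
          rw [hκ]; push_cast
          field_simp
          ring
  have hNc : (Z.card : ℝ) ^ c ≤ C * B ^ (ε * c / 2) := by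
    have h2 : (Z.card : ℝ) ^ (k + 1) = (Z.card : ℝ) ^ c * (Z.card : ℝ) ^ ((k : ℝ) + 1 - c) := by
      rw [← Real.rpow_natCast, ← Real.rpow_add hNr]
      congr 1; push_cast; ring
    have h3 : (Z.card : ℝ) ^ c * (Z.card : ℝ) ^ ((k : ℝ) + 1 - c) ≤
        (C * B ^ (ε * c / 2)) * (Z.card : ℝ) ^ ((k : ℝ) + 1 - c) := by
      rw [← h2]
      refine hsum.trans ?_
      calc ((p : ℝ) ^ f) ^ (k + 1) * (C * (Z.card : ℝ) ^ ((k : ℝ) + 1 - c))
          ≤ B ^ (ε * c / 2) * (C * (Z.card : ℝ) ^ ((k : ℝ) + 1 - c)) := by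
            apply mul_le_mul_of_nonneg_right hpow (by positivity)
        _ = _ := by ring
    exact le_of_mul_le_mul_right h3 (by positivity)
  -- conclusion
  have hCB : C ≤ B ^ (ε * c / 2) := by
    have h4 : C ^ (2 / (c * ε)) ≤ B := le_trans (le_max_right _ _) hB
    calc C = (C ^ (2 / (c * ε))) ^ (ε * c / 2) := by
          rw [← Real.rpow_mul (by linarith)]
          have : 2 / (c * ε) * (ε * c / 2) = 1 := by field_simp
          rw [this, Real.rpow_one]
      _ ≤ B ^ (ε * c / 2) := Real.rpow_le_rpow (by positivity) h4 (by positivity)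
  have hfin : (Z.card : ℝ) ^ c ≤ (B ^ ε) ^ c := by
    refine hNc.trans ?_
    calc C * B ^ (ε * c / 2) ≤ B ^ (ε * c / 2) * B ^ (ε * c / 2) :=
          mul_le_mul_of_nonneg_right hCB (by positivity)
      _ = (B ^ ε) ^ c := by
          rw [← Real.rpow_add hBpos, ← Real.rpow_mul hBpos.le]
          congr 1; ring
  exact (Real.rpow_le_rpow_iff hNr.le (by positivity) hc0).1 hfin

end Pool.SHA
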