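import Pool.Agent.H45.SHA.Stmts

/-!
# SHA, module MAIN: assembly
-/

set_option autoImplicit false

namespace Pool.SHA

open Finset Pool.Agent.H98.ABCR

private lemma main_kl_full (K : Finset ℕ) (n : ℕ) (hK : n.primeFactors ⊆ K) :
    kl K n = Real.log n := by
  unfold kl
  rw [Real.log_nat_eq_sum_factorization, Finsupp.sum, Nat.support_factorization]
  symm
  apply Finset.sum_subset hK
  intro q _ hq
  rw [← Nat.support_factorization, Finsupp.notMem_support_iff] at hq
  rw [hq]; simp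

private lemma main_nn_ne (v : ℕ × ℕ) (hv : IsTri v) : nn v ≠ 0 := by
  obtain ⟨ha, hb, _⟩ := hv
  unfold nn
  positivity

private lemma main_coord_dvd (v : ℕ × ℕ) (s : Fin 3) : coord v s ∣ nn v := by
  unfold nn
  fin_cases s
  · exact ⟨v.2 * (v.1 + v.2), by show _ = v.1 * _; ring⟩
  · exact ⟨v.1 * (v.1 + v.2), by show _ = v.2 * _; ring⟩
  · exact ⟨v.1 * v.2, by show _ = (v.1 + v.2) * _; ring⟩

private lemma main_mass_full (v : ℕ × ℕ) (hv : IsTri v) :
    3 * hh v - Real.log 2 ≤ mass (nn v).primeFactors v := by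
  have hnn := main_nn_ne v hv
  have hsub : ∀ s, (coord v s).primeFactors ⊆ (nn v).primeFactors :=
    fun s => Nat.primeFactors_mono (main_coord_dvd v s) hnn
  obtain ⟨ha, hb, _⟩ := hv
  have ha' : (0 : ℝ) < (v.1 : ℝ) := by exact_mod_cast ha
  have hb' : (0 : ℝ) < (v.2 : ℝ) := by exact_mod_cast hb
  unfold mass
  rw [Fin.sum_univ_three, main_kl_full _ _ (hsub 0), main_kl_full _ _ (hsub 1),
    main_kl_full _ _ (hsub 2)]
  have e0 : coord v 0 = v.1 := rfl
  have e1 : coord v 1 = v.2 := rfl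
  have e2 : coord v 2 = v.1 + v.2 := rfl
  rw [e0, e1, e2]
  have hhd : hh v = Real.log ((v.1 + v.2 : ℕ) : ℝ) := rfl
  rw [← hhd]
  rcases le_total v.1 v.2 with h | h
  · rw [min_eq_left h]
    have h1 : hh v ≤ Real.log 2 + Real.log v.2 := by
      rw [hhd, ← Real.log_mul (by norm_num) hb'.ne']
      apply Real.log_le_log
      · push_cast; positivity
      · push_cast
        have : (v.1 : ℝ) ≤ v.2 := by exact_mod_cast h
        linarith
    linarith
  · rw [min_eq_right h]
    have h1 : hh v ≤ Real.log 2 + Real.log v.1 := by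
      rw [hhd, ← Real.log_mul (by norm_num) ha'.ne']
      apply Real.log_le_log
      · push_cast; positivity
      · push_cast
        have : (v.2 : ℝ) ≤ v.1 := by exact_mod_cast h
        linarith
    linarith

private lemma main_RR_pos (v : ℕ × ℕ) : 0 < RR v := by
  unfold RR rad
  exact Finset.prod_pos fun p hp => (Nat.prime_of_mem_primeFactors hp).pos

private lemma main_RR_pf (v : ℕ × ℕ) : (RR v).primeFactors = (nn v).primeFactors := by
  unfold RR rad
  exact Nat.primeFactors_prod fun p hp => Nat.prime_of_mem_primeFactors hp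

private lemma main_log_le (H : ℝ) (hH : 1 ≤ H) : 1 + Real.log H ≤ H := by
  have := Real.log_le_sub_one_of_pos (by linarith : 0 < H)
  linarith

private lemma main_generic (hGP : S_GP) : ∃ C : ℝ, 1 ≤ C ∧
    ∀ (X H : ℝ) (F : Finset (ℕ × ℕ)), 1 ≤ X → 1 ≤ H →
      (∀ v ∈ F, IsTri v ∧ (RR v : ℝ) ≤ X ∧ hh v ≤ H ∧ 2 ≤ hh v) →
      (F.card : ℝ) ≤ C * X ^ C * H := by
  classical
  obtain ⟨C, hC, hG⟩ := hGP (1 / 2) (by norm_num) (by norm_num)
  have hL0 : 0 ≤ Real.logb 2 C := Real.logb_nonneg (by norm_num) hC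
  have hCL : (2 : ℝ) ^ (Real.logb 2 C) = C :=
    Real.rpow_logb (by norm_num) (by norm_num) (by linarith)
  refine ⟨C + (1 + Real.logb 2 C), by linarith, ?_⟩
  intro X H F hX hH hF
  have hX0 : 0 < X := by linarith
  have hcard : F.card = ∑ m ∈ Icc 1 ⌊X⌋₊, (F.filter (fun v => RR v = m)).card := by
    apply Finset.card_eq_sum_card_fiberwise
    intro v hv
    rw [Finset.mem_coe, Finset.mem_Icc]
    exact ⟨main_RR_pos v, Nat.le_floor (hF v hv).2.1⟩
  have hfib : ∀ m ∈ Icc 1 ⌊X⌋₊, ((F.filter (fun v => RR v = m)).card : ℝ) ≤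
      C * X ^ (Real.logb 2 C) * H := by
    intro m hm
    rw [Finset.mem_Icc] at hm
    rcases Finset.eq_empty_or_nonempty (F.filter (fun v => RR v = m)) with he | ⟨v0, hv0⟩
    · rw [he]; simp only [Finset.card_empty, Nat.cast_zero]; positivity
    have hv0' := (Finset.mem_filter.1 hv0).2
    have h1 := hG H m.primeFactors (F.filter (fun v => RR v = m)) hH
      (fun q hq => Nat.prime_of_mem_primeFactors hq)
      (by
        intro v hv
        rw [Finset.mem_filter] at hv
        obtain ⟨hvF, hvm⟩ := hv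
        obtain ⟨ht, _, hhH, hh2⟩ := hF v hvF
        refine ⟨ht, hhH, ?_⟩
        rw [← hvm, main_RR_pf]
        have := main_mass_full v ht
        have hl2 := Real.log_two_lt_d9
        linarith)
    refine h1.trans ?_
    have hcardK : (2 : ℝ) ^ m.primeFactors.card ≤ X := by
      have hm1 : 2 ^ m.primeFactors.card ≤ m := by
        have h2 : 2 ^ m.primeFactors.card ≤ ∏ p ∈ m.primeFactors, p :=
          Finset.pow_card_le_prod _ _ _ (fun p hp => (Nat.prime_of_mem_primeFactors hp).two_le)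
        exact h2.trans (Nat.le_of_dvd (by omega) (Nat.prod_primeFactors_dvd m))
      have h3 : (m : ℝ) ≤ X := le_trans (by exact_mod_cast hm.2) (Nat.floor_le hX0.le)
      exact le_trans (by exact_mod_cast hm1) h3
    have hpow : C ^ m.primeFactors.card ≤ X ^ (Real.logb 2 C) := by
      calc C ^ m.primeFactors.card = ((2 : ℝ) ^ (Real.logb 2 C)) ^ m.primeFactors.card := by
            rw [hCL]
        _ = ((2 : ℝ) ^ m.primeFactors.card) ^ (Real.logb 2 C) := by
            rw [← Real.rpow_natCast, ← Real.rpow_natCast, ← Real.rpow_mul (by norm_num),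
              ← Real.rpow_mul (by norm_num), mul_comm]
        _ ≤ X ^ (Real.logb 2 C) := Real.rpow_le_rpow (by positivity) hcardK hL0
    have hlogH : 0 ≤ 1 + Real.log H := by have := Real.log_nonneg hH; linarith
    calc C ^ (m.primeFactors.card + 1) * (1 + Real.log H)
        = C * C ^ m.primeFactors.card * (1 + Real.log H) := by rw [pow_succ]; ring
      _ ≤ C * X ^ (Real.logb 2 C) * H := by
          apply mul_le_mul _ (main_log_le H hH) hlogH (by positivity)
          exact mul_le_mul_of_nonneg_left hpow (by linarith)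
  have hsum : (F.card : ℝ) ≤ X * (C * X ^ (Real.logb 2 C) * H) := by
    rw [hcard, Nat.cast_sum]
    calc ∑ m ∈ Icc 1 ⌊X⌋₊, ((F.filter (fun v => RR v = m)).card : ℝ)
        ≤ ∑ _m ∈ Icc 1 ⌊X⌋₊, C * X ^ (Real.logb 2 C) * H := Finset.sum_le_sum hfib
      _ = (⌊X⌋₊ : ℝ) * (C * X ^ (Real.logb 2 C) * H) := by
          rw [Finset.sum_const, nsmul_eq_mul, Nat.card_Icc]; simp
      _ ≤ X * (C * X ^ (Real.logb 2 C) * H) := by
          apply mul_le_mul_of_nonneg_right (Nat.floor_le hX0.le) (by positivity)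
  refine hsum.trans ?_
  have e : X * (C * X ^ (Real.logb 2 C) * H) = C * X ^ (1 + Real.logb 2 C) * H := by
    rw [Real.rpow_add hX0, Real.rpow_one]; ring
  rw [e]
  apply mul_le_mul_of_nonneg_right _ (by linarith)
  apply mul_le_mul (by linarith) _ (by positivity) (by linarith)
  exact Real.rpow_le_rpow_of_exponent_le hX (by linarith)

private lemma main_primes (Cg ε : ℝ) (hC : 1 ≤ Cg) (hε : 0 < ε) : ∃ D : ℝ, 1 ≤ D ∧
    ∀ K : Finset ℕ, (∀ q ∈ K, q.Prime) → Cg ^ K.card ≤ D * ((∏ q ∈ K, q : ℕ) : ℝ) ^ ε := by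
  classical
  refine ⟨Cg ^ (⌈Cg ^ (1 / ε)⌉₊ + 1), one_le_pow₀ hC, ?_⟩
  intro K hK
  obtain ⟨Y, hY⟩ : ∃ Y : ℕ, Y = ⌈Cg ^ (1 / ε)⌉₊ := ⟨_, rfl⟩
  rw [← hY]
  have h1 : Cg ^ K.card ≤ ∏ q ∈ K, ((if q ≤ Y then Cg else 1) * ((q : ℝ) ^ ε)) := by
    rw [← Finset.prod_const]
    apply Finset.prod_le_prod (fun _ _ => by linarith)
    intro q hq
    have hq1 : (1 : ℝ) ≤ q := by exact_mod_cast (hK q hq).one_lt.le
    have hqe : 1 ≤ (q : ℝ) ^ ε := Real.one_le_rpow hq1 hε.le
    split_ifs with h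
    · nlinarith
    · rw [one_mul]
      have h2 : Cg ^ (1 / ε) ≤ q := by
        have h3 : Cg ^ (1 / ε) ≤ (Y : ℝ) := by rw [hY]; exact Nat.le_ceil _
        have h4 : (Y : ℝ) ≤ q := by exact_mod_cast (not_le.1 h).le
        linarith
      calc Cg = (Cg ^ (1 / ε)) ^ ε := by
            rw [← Real.rpow_mul (by linarith), one_div, inv_mul_cancel₀ hε.ne', Real.rpow_one]
        _ ≤ (q : ℝ) ^ ε := Real.rpow_le_rpow (by positivity) h2 hε.le
  refine h1.trans ?_
  rw [Finset.prod_mul_distrib]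
  have h2 : ∏ q ∈ K, (if q ≤ Y then Cg else 1) ≤ Cg ^ (Y + 1) := by
    rw [← Finset.prod_filter, Finset.prod_const]
    apply pow_le_pow_right₀ hC
    calc (K.filter (fun q => q ≤ Y)).card ≤ (Finset.range (Y + 1)).card := by
          apply Finset.card_le_card
          intro q hq
          rw [Finset.mem_filter] at hq
          rw [Finset.mem_range]; omega
      _ = Y + 1 := Finset.card_range _
  have h3 : ∏ q ∈ K, ((q : ℝ) ^ ε) = ((∏ q ∈ K, q : ℕ) : ℝ) ^ ε := by
    rw [Nat.cast_prod, Real.finsetProd_rpow]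
    intro q _; positivity
  rw [h3]
  exact mul_le_mul_of_nonneg_right h2 (by positivity)

private lemma main_mono (X H α α' β β' : ℝ) (hX : 1 ≤ X) (hH : 1 ≤ H) (h1 : α ≤ α')
    (h2 : β ≤ β') : X ^ α * H ^ β ≤ X ^ α' * H ^ β' :=
  mul_le_mul (Real.rpow_le_rpow_of_exponent_le hX h1) (Real.rpow_le_rpow_of_exponent_le hH h2)
    (by positivity) (by positivity)

/-- assembly -/
theorem main_thm (hTR0 : S_TR0) (hKN : S_KN) (hFA : S_FA) (hGP : S_GP) : S_MAIN := by
  classical
  intro ε0 hε0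
  obtain ⟨ε, hεdef⟩ : ∃ ε : ℝ, ε = min ε0 1 := ⟨_, rfl⟩
  have hε : 0 < ε := by rw [hεdef]; exact lt_min hε0 one_pos
  have hε1 : ε ≤ 1 := by rw [hεdef]; exact min_le_right _ _
  have hεε0 : ε ≤ ε0 := by rw [hεdef]; exact min_le_left _ _
  obtain ⟨C0, hC0, hT⟩ := hTR0
  obtain ⟨CG, hCG, hG⟩ := main_generic hGP
  obtain ⟨δ, η, hδ0, hδ1, hη0, hη1, hK⟩ := hKN (ε / 4) (by linarith) (by linarith)
  obtain ⟨Cd, hCd, hGd⟩ := hGP δ hδ0 hδ1
  obtain ⟨D, hD, hDp⟩ := main_primes Cd (ε / 4) hCd (by linarith)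
  obtain ⟨c, hcdef⟩ : ∃ c : ℝ, c = (ε / (4 * C0)) ^ 2 := ⟨_, rfl⟩
  have hC0pos : 0 < C0 := by linarith
  have hc : 0 < c := by rw [hcdef]; positivity
  obtain ⟨A, X0, hA, hX0, hF⟩ := hFA (ε / 4) δ η c (by linarith) hδ0 hδ1 hη0 hc
  -- threshold
  obtain ⟨X1, hX1, hX13, hX10, hX1l⟩ : ∃ X1 : ℝ, 1 ≤ X1 ∧ 3 ≤ X1 ∧ X0 ≤ X1 ∧
      ∀ X, X1 ≤ X → 2 + 1 / δ ≤ c * Real.log X ^ 2 := by
    refine ⟨max (max 3 X0) (Real.exp (Real.sqrt ((2 + 1 / δ) / c))), ?_, ?_, ?_, ?_⟩
    · exact le_trans (by norm_num) (le_trans (le_max_left 3 X0) (le_max_left _ _))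
    · exact le_trans (le_max_left 3 X0) (le_max_left _ _)
    · exact le_trans (le_max_right 3 X0) (le_max_left _ _)
    · intro X hX
      have h1 : Real.exp (Real.sqrt ((2 + 1 / δ) / c)) ≤ X := le_trans (le_max_right _ _) hX
      have h2 : Real.sqrt ((2 + 1 / δ) / c) ≤ Real.log X :=
        (Real.le_log_iff_exp_le (lt_of_lt_of_le (Real.exp_pos _) h1)).2 h1
      have h3 : (2 + 1 / δ) / c ≤ Real.log X ^ 2 := by
        rw [← Real.sq_sqrt (show 0 ≤ (2 + 1 / δ) / c by positivity)]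
        exact pow_le_pow_left₀ (Real.sqrt_nonneg _) h2 2
      rw [div_le_iff₀ hc] at h3
      linarith
  obtain ⟨Af, hAf⟩ : ∃ Af : ℝ, Af = CG + 1 + A := ⟨_, rfl⟩
  obtain ⟨E, hE⟩ : ∃ E : ℝ, E = Real.exp (C0 * Real.sqrt 2) := ⟨_, rfl⟩
  have hE0 : 0 < E := by rw [hE]; exact Real.exp_pos _
  refine ⟨Af, 3 + CG + Cd * D + 1 + 3 * E + CG * X1 ^ CG, by rw [hAf]; linarith, ?_, ?_⟩
  · have : 0 ≤ Cd * D := by positivity
    have h2 : 0 ≤ CG * X1 ^ CG := by positivity
    linarith
  intro X H F hX hH hFv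
  have hXpos : 0 < X := by linarith
  have hHpos : 0 < H := by linarith
  obtain ⟨Z, hZ⟩ : ∃ Z : ℝ, Z = X ^ (2 / 3 + ε0) * H ^ Af := ⟨_, rfl⟩
  have hZ0 : 0 < Z := by rw [hZ]; positivity
  have hmono : ∀ α β : ℝ, α ≤ 2 / 3 + ε0 → β ≤ Af → X ^ α * H ^ β ≤ Z := by
    intro α β h1 h2
    rw [hZ]
    exact main_mono X H α _ β _ hX hH h1 h2
  rw [mul_assoc, ← hZ]
  rcases lt_or_ge X X1 with hlt | hge
  · -- small X
    have hsplit : F.card = (F.filter (fun v => hh v ≤ 2)).card +
        (F.filter (fun v => ¬ hh v ≤ 2)).card := (Finset.card_filter_add_card_filter_not _).symm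
    have h1 := hT X 2 (F.filter (fun v => hh v ≤ 2)) hX (by norm_num) (by
      intro v hv
      rw [Finset.mem_filter] at hv
      exact ⟨(hFv v hv.1).1, (hFv v hv.1).2.1, hv.2⟩)
    have h2 := hG X H (F.filter (fun v => ¬ hh v ≤ 2)) hX hH (by
      intro v hv
      rw [Finset.mem_filter] at hv
      exact ⟨(hFv v hv.1).1, (hFv v hv.1).2.1, (hFv v hv.1).2.2, (not_le.1 hv.2).le⟩)
    rw [hsplit]; push_cast
    rw [← hE] at h1
    have h3 : 3 * X ^ (2 / 3 : ℝ) * E ≤ 3 * E * Z := by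
      have := hmono (2 / 3) 0 (by linarith) (by rw [hAf]; linarith)
      rw [Real.rpow_zero, mul_one] at this
      calc 3 * X ^ (2 / 3 : ℝ) * E = 3 * E * X ^ (2 / 3 : ℝ) := by ring
        _ ≤ 3 * E * Z := mul_le_mul_of_nonneg_left this (by positivity)
    have h4 : CG * X ^ CG * H ≤ CG * X1 ^ CG * Z := by
      have := hmono 0 1 (by linarith) (by rw [hAf]; linarith)
      rw [Real.rpow_zero, one_mul, Real.rpow_one] at this
      apply mul_le_mul _ this hHpos.le (by positivity)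
      apply mul_le_mul_of_nonneg_left _ (by linarith)
      exact Real.rpow_le_rpow hXpos.le hlt.le (by linarith)
    have h5 : 0 ≤ (3 + CG + Cd * D + 1) * Z := by positivity
    calc _ ≤ 3 * X ^ (2 / 3 : ℝ) * E + CG * X ^ CG * H := add_le_add h1 h2
      _ ≤ 3 * E * Z + CG * X1 ^ CG * Z := add_le_add h3 h4
      _ ≤ _ := by linarith
  · -- large X
    have hX3 : 3 ≤ X := hX13.trans hge
    have hXX0 : X0 ≤ X := hX10.trans hge
    have hlogX : 0 ≤ Real.log X := Real.log_nonneg hX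
    obtain ⟨h, hh0⟩ : ∃ h : ℝ, h = c * Real.log X ^ 2 := ⟨_, rfl⟩
    have hh2 : 2 + 1 / δ ≤ h := by rw [hh0]; exact hX1l X hge
    have hδi : 0 < 1 / δ := by positivity
    have hs1 : F.card = (F.filter (fun v => hh v ≤ h)).card +
        (F.filter (fun v => ¬ hh v ≤ h)).card := (Finset.card_filter_add_card_filter_not _).symm
    have hs2 : (F.filter (fun v => ¬ hh v ≤ h)).card =
        ((F.filter (fun v => ¬ hh v ≤ h)).filter (fun v => hh v ≤ X)).card +
        ((F.filter (fun v => ¬ hh v ≤ h)).filter (fun v => ¬ hh v ≤ X)).card :=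
      (Finset.card_filter_add_card_filter_not _).symm
    -- small heights
    have b0 : ((F.filter (fun v => hh v ≤ h)).card : ℝ) ≤ 3 * Z := by
      have h1 := hT X h (F.filter (fun v => hh v ≤ h)) hX (by linarith) (by
        intro v hv
        rw [Finset.mem_filter] at hv
        exact ⟨(hFv v hv.1).1, (hFv v hv.1).2.1, hv.2⟩)
      refine h1.trans ?_
      have h2 : Real.sqrt h = ε / (4 * C0) * Real.log X := by
        rw [hh0, hcdef, ← mul_pow, Real.sqrt_sq (by positivity)]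
      have h3 : Real.exp (C0 * Real.sqrt h) = X ^ (ε / 4) := by
        rw [h2, Real.rpow_def_of_pos hXpos]
        congr 1
        field_simp
      rw [h3]
      have := hmono (2 / 3 + ε / 4) 0 (by linarith) (by rw [hAf]; linarith)
      rw [Real.rpow_zero, mul_one, Real.rpow_add hXpos] at this
      calc 3 * X ^ (2 / 3 : ℝ) * X ^ (ε / 4) = 3 * (X ^ (2 / 3 : ℝ) * X ^ (ε / 4)) := by ring
        _ ≤ 3 * Z := by linarith
    -- huge heights
    have b1 : (((F.filter (fun v => ¬ hh v ≤ h)).filter (fun v => ¬ hh v ≤ X)).card : ℝ) ≤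
        CG * Z := by
      rcases Finset.eq_empty_or_nonempty
        ((F.filter (fun v => ¬ hh v ≤ h)).filter (fun v => ¬ hh v ≤ X)) with he | ⟨v0, hv0⟩
      · rw [he]; simp only [Finset.card_empty, Nat.cast_zero]; positivity
      have hXH : X ≤ H := by
        rw [Finset.mem_filter, Finset.mem_filter] at hv0
        have := (hFv v0 hv0.1.1).2.2
        have h3 := not_le.1 hv0.2
        linarith
      have h1 := hG X H ((F.filter (fun v => ¬ hh v ≤ h)).filter (fun v => ¬ hh v ≤ X)) hX hH (by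
        intro v hv
        rw [Finset.mem_filter, Finset.mem_filter] at hv
        refine ⟨(hFv v hv.1.1).1, (hFv v hv.1.1).2.1, (hFv v hv.1.1).2.2, ?_⟩
        have := not_le.1 hv.1.2
        linarith)
      refine h1.trans ?_
      have := hmono 0 (CG + 1) (by linarith) (by rw [hAf]; linarith)
      rw [Real.rpow_zero, one_mul, Real.rpow_add hHpos, Real.rpow_one] at this
      calc CG * X ^ CG * H ≤ CG * H ^ CG * H := by
            apply mul_le_mul_of_nonneg_right _ hHpos.le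
            apply mul_le_mul_of_nonneg_left _ (by linarith)
            exact Real.rpow_le_rpow hXpos.le hXH (by linarith)
        _ = CG * (H ^ CG * H) := by ring
        _ ≤ CG * Z := mul_le_mul_of_nonneg_left this (by linarith)
    -- middle heights
    obtain ⟨F2, hF2⟩ : ∃ F2 : Finset (ℕ × ℕ),
        F2 = (F.filter (fun v => ¬ hh v ≤ h)).filter (fun v => hh v ≤ X) := ⟨_, rfl⟩
    have hF2p : ∀ v ∈ F2, IsTri v ∧ (RR v : ℝ) ≤ X ∧ hh v ≤ H ∧ h < hh v ∧ hh v ≤ X := by
      intro v hv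
      rw [hF2, Finset.mem_filter, Finset.mem_filter] at hv
      exact ⟨(hFv v hv.1.1).1, (hFv v hv.1.1).2.1, (hFv v hv.1.1).2.2, not_le.1 hv.1.2, hv.2⟩
    have hchoice : ∀ v, ∃ K : Finset ℕ, v ∈ F2 → K ⊆ (nn v).primeFactors ∧
        ((∏ q ∈ K, q : ℕ) : ℝ) ≤ X ^ (2 / 3 + ε / 4) ∧
        ((2 + δ) * hh v ≤ mass K v ∨
          ((∀ q ∈ (nn v).primeFactors, q ∉ K → X ^ η < (q : ℝ)) ∧
            ∃ t, δ * hh v ≤ kl K (coord v t))) := by
      intro v
      by_cases hv : v ∈ F2
      · obtain ⟨ht, hR, _, hl, _⟩ := hF2p v hv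
        obtain ⟨K, hK1, hK2⟩ := hK X v hX3 ht hR (by linarith)
        exact ⟨K, fun _ => ⟨hK1, hK2⟩⟩
      · exact ⟨∅, fun h' => absurd h' hv⟩
    choose Kf hKf using hchoice
    have hKprime : ∀ K ∈ F2.image Kf, ∀ q ∈ K, q.Prime := by
      intro K hKm q hq
      rw [Finset.mem_image] at hKm
      obtain ⟨v, hv, rfl⟩ := hKm
      exact Nat.prime_of_mem_primeFactors ((hKf v hv).1 hq)
    have hKprod : ∀ K ∈ F2.image Kf, ((∏ q ∈ K, q : ℕ) : ℝ) ≤ X ^ (2 / 3 + ε / 4) := by
      intro K hKm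
      rw [Finset.mem_image] at hKm
      obtain ⟨v, hv, rfl⟩ := hKm
      exact (hKf v hv).2.1
    have hScard : ((F2.image Kf).card : ℝ) ≤ X ^ (2 / 3 + ε / 4) := by
      have h1 : (F2.image Kf).card ≤ (Icc 1 ⌊X ^ (2 / 3 + ε / 4)⌋₊).card := by
        apply Finset.card_le_card_of_injOn (fun K => ∏ q ∈ K, q)
        · intro K hKm
          have hKm' := Finset.mem_coe.1 hKm
          rw [Finset.mem_coe, Finset.mem_Icc]
          refine ⟨Finset.prod_pos fun q hq => (hKprime K hKm' q hq).pos, ?_⟩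
          exact Nat.le_floor (hKprod K hKm')
        · intro K1 h1 K2 h2 h12
          have e1 := Nat.primeFactors_prod (hKprime K1 (Finset.mem_coe.1 h1))
          have e2 := Nat.primeFactors_prod (hKprime K2 (Finset.mem_coe.1 h2))
          simp only at h12
          rw [← e1, ← e2, h12]
      rw [Nat.card_Icc, Nat.add_sub_cancel] at h1
      exact le_trans (by exact_mod_cast h1) (Nat.floor_le (by positivity))
    have hfib : ∀ K ∈ F2.image Kf, ((F2.filter (fun v => Kf v = K)).card : ℝ) ≤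
        Cd * D * (X ^ (ε / 4) * H) + X ^ (ε / 4) * H ^ A := by
      intro K hKm
      have hsp : (F2.filter (fun v => Kf v = K)).card =
          ((F2.filter (fun v => Kf v = K)).filter (fun v => (2 + δ) * hh v ≤ mass K v)).card +
          ((F2.filter (fun v => Kf v = K)).filter (fun v => ¬ (2 + δ) * hh v ≤ mass K v)).card :=
        (Finset.card_filter_add_card_filter_not _).symm
      have hB := hGd H K
        ((F2.filter (fun v => Kf v = K)).filter (fun v => (2 + δ) * hh v ≤ mass K v)) hH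
        (hKprime K hKm) (by
          intro v hv
          rw [Finset.mem_filter, Finset.mem_filter] at hv
          exact ⟨(hF2p v hv.1.1).1, (hF2p v hv.1.1).2.2.1, hv.2⟩)
      have hAA := hF X H K
        ((F2.filter (fun v => Kf v = K)).filter (fun v => ¬ (2 + δ) * hh v ≤ mass K v)) hXX0 hH
        (by
          intro v hv
          rw [Finset.mem_filter, Finset.mem_filter] at hv
          obtain ⟨⟨hvF, hvK⟩, hnB⟩ := hv
          obtain ⟨ht, hR, hH', hl, hX'⟩ := hF2p v hvF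
          obtain ⟨k1, k2, k3⟩ := hKf v hvF
          rw [hvK] at k1 k2 k3
          rcases k3 with k3 | ⟨k4, k5⟩
          · exact absurd k3 hnB
          · exact ⟨ht, hR, hH', hX', by rw [← hh0]; exact hl.le, k1, k4, k5⟩)
      rw [hsp]; push_cast
      refine add_le_add (hB.trans ?_) hAA
      have hPX : ((∏ q ∈ K, q : ℕ) : ℝ) ≤ X := by
        refine (hKprod K hKm).trans ?_
        calc X ^ (2 / 3 + ε / 4) ≤ X ^ (1 : ℝ) := Real.rpow_le_rpow_of_exponent_le hX (by linarith)
          _ = X := Real.rpow_one X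
      have hlogH : 0 ≤ 1 + Real.log H := by have := Real.log_nonneg hH; linarith
      have h1 := hDp K (hKprime K hKm)
      have h2 : D * ((∏ q ∈ K, q : ℕ) : ℝ) ^ (ε / 4) ≤ D * X ^ (ε / 4) := by
        apply mul_le_mul_of_nonneg_left _ (by linarith)
        exact Real.rpow_le_rpow (by positivity) hPX (by positivity)
      calc Cd ^ (K.card + 1) * (1 + Real.log H) = Cd * Cd ^ K.card * (1 + Real.log H) := by
            rw [pow_succ]; ring
        _ ≤ Cd * (D * X ^ (ε / 4)) * H := by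
            apply mul_le_mul _ (main_log_le H hH) hlogH (by positivity)
            exact mul_le_mul_of_nonneg_left (h1.trans h2) (by linarith)
        _ = Cd * D * (X ^ (ε / 4) * H) := by ring
    have b2 : (F2.card : ℝ) ≤ (Cd * D + 1) * Z := by
      have h1 : F2.card = ∑ K ∈ F2.image Kf, (F2.filter (fun v => Kf v = K)).card :=
        Finset.card_eq_sum_card_fiberwise (fun v hv => Finset.mem_coe.2
          (Finset.mem_image_of_mem _ (Finset.mem_coe.1 hv)))
      rw [h1, Nat.cast_sum]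
      have e1 := hmono (2 / 3 + ε / 4 + ε / 4) 1 (by linarith) (by rw [hAf]; linarith)
      have e2 := hmono (2 / 3 + ε / 4 + ε / 4) A (by linarith) (by rw [hAf]; linarith)
      rw [Real.rpow_add hXpos (2 / 3 + ε / 4) (ε / 4), Real.rpow_one] at e1
      rw [Real.rpow_add hXpos (2 / 3 + ε / 4) (ε / 4)] at e2
      calc ∑ K ∈ F2.image Kf, ((F2.filter (fun v => Kf v = K)).card : ℝ)
          ≤ ∑ _K ∈ F2.image Kf, (Cd * D * (X ^ (ε / 4) * H) + X ^ (ε / 4) * H ^ A) :=
            Finset.sum_le_sum hfib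
        _ = ((F2.image Kf).card : ℝ) * (Cd * D * (X ^ (ε / 4) * H) + X ^ (ε / 4) * H ^ A) := by
            rw [Finset.sum_const, nsmul_eq_mul]
        _ ≤ X ^ (2 / 3 + ε / 4) * (Cd * D * (X ^ (ε / 4) * H) + X ^ (ε / 4) * H ^ A) := by
            apply mul_le_mul_of_nonneg_right hScard (by positivity)
        _ = Cd * D * (X ^ (2 / 3 + ε / 4) * X ^ (ε / 4) * H) +
            X ^ (2 / 3 + ε / 4) * X ^ (ε / 4) * H ^ A := by ring
        _ ≤ Cd * D * Z + Z := add_le_add (mul_le_mul_of_nonneg_left e1 (by positivity)) e2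
        _ = _ := by ring
    rw [hs1, hs2, ← hF2]; push_cast
    have p1 : 0 ≤ 3 * E * Z := by positivity
    have p2 : 0 ≤ CG * X1 ^ CG * Z := by positivity
    linarith

end Pool.SHA
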